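import Pool.Agent.K3h88.Erde.Final
import Pool.Agent.K3h12.Erde.Fa
import Pool.Agent.K3h88.Erde.Lam

/-!
# Erde's conjecture: decompositions of even-dimensional hypercubes into paths of fixed length

For every even `n` and every `k` with `1 ≤ k ≤ 2 ^ n - 1` and `k ∣ n * 2 ^ (n - 1)` the edge set of
the hypercube `Q_n` is a disjoint union of edge sets of paths with `k` edges.

Idea. Write `k = 2 ^ j * m` with `m` odd, so that `m` divides `n / 2`; a path can be cut into
shorter ones, so that only the largest `j` matters.

* `m = 1`: `Q_n` is the union of `n / 2` edge disjoint Hamiltonian cycles, and each of them is cut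
  into two paths. The Hamiltonian decomposition is proved by a recursion from an explicit
  decomposition of the product of two cycles, an explicit decomposition of the product of three
  cycles, and one decomposition of `Q_10` found by computer.
* `m ≥ 3`, `n = 2 * m * t`: the Hamiltonian decomposition of `Q_{2t}` reduces the question to the
  torus `(ℤ / L) ^ m` with `L = 4 ^ t`. With `2 ^ (a - 1) < m < 2 ^ a` its edges are coloured with
  `2 ^ a` colours, guided by a Gray code of length `m` in the cube of dimension `a`; `m - 1` rounds
  of exchanges of edges merge the components of every colour class until each class is one cycle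
  with `m * L ^ m / 2 ^ a` vertices. A last exchange of one edge in each pair of cycles turns the
  cycles into paths with `m * L ^ m / 2 ^ a` edges.
-/

set_option autoImplicit false

namespace Pool.Agent.Results.MP_7b50be_co.ErdePathDecomposition

/-- The hypercube graph `Q_n`: the vertices are the 0/1-vectors of length `n`, two vertices are
adjacent when they differ in exactly one coordinate. -/
def hypercube (n : ℕ) : SimpleGraph (Fin n → Bool) where
  Adj x y := ∃! i, x i ≠ y i
  symm := ⟨fun x y h => by
    obtain ⟨i, hi, h2⟩ := h
    exact ⟨i, fun h => hi h.symm, fun j hj => h2 j fun h => hj h.symm⟩⟩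
  loopless := ⟨fun x h => by
    obtain ⟨i, hi, _⟩ := h
    exact hi rfl⟩

/-- `E(G)` can be partitioned into copies of `P_{k+1}`: it is the disjoint union of the edge sets
of subgraphs of `G`, each isomorphic to the path with `k + 1` vertices and `k` edges. -/
def PartitionIntoPaths {V : Type} (G : SimpleGraph V) (k : ℕ) : Prop :=
  ∃ (ι : Type) (H : ι → G.Subgraph),
    (∀ i, Nonempty ((H i).coe ≃g SimpleGraph.pathGraph (k + 1))) ∧
    (∀ i j, i ≠ j → Disjoint (H i).edgeSet (H j).edgeSet) ∧
    (⋃ i, (H i).edgeSet) = G.edgeSet

/-- Erde's conjecture holds: for every even `n ≥ 2` and every `k ≥ 1` with `k ≤ 2 ^ n - 1` and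
`k ∣ n * 2 ^ (n - 1)`, `E(Q_n)` can be partitioned into copies of `P_{k+1}`. -/
theorem result (n k : ℕ) (hn : Even n) (hn2 : 2 ≤ n) (hk : 1 ≤ k) (hkn : k ≤ 2 ^ n - 1)
    (hdvd : k ∣ n * 2 ^ (n - 1)) : PartitionIntoPaths (hypercube n) k := by
  obtain ⟨r, hr⟩ := Pool.Agent.K3h88.Erde.fb Pool.Agent.K3h88.Erde.lamp n k hn hn2 hk hkn hdvd
  exact Pool.Agent.K3h12.Erde.fa n k r hk hr

end Pool.Agent.Results.MP_7b50be_co.ErdePathDecomposition
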